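import Pool.Agent.U762.DZ.Stm

set_option autoImplicit false

/-!
# Project DZ, package GEO: the recursion after `κ ℓ` steps
-/

namespace Pool.Agent.U255.DZ.GEO

open Finset Filter Topology
open Pool.Agent.U762.RP Pool.Agent.U762.DZ

/-- a supersolution of the recursion of `g` -/
theorem g_bound {ε R ρ s q C : ℝ} (hε : 0 ≤ ε) (hR : 0 ≤ R) (hρ : 0 ≤ ρ) (hs : ρ ≤ s)
    (hq : (1 - ε) * R ≤ q) (hq1 : 0 ≤ (1 - ε) * R) (hC : 0 ≤ C) (h : R * ε ≤ C * (s - q)) (k : ℕ) :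
    g ε R ρ k ≤ C * s ^ k + q ^ k := by
  have hs0 : 0 ≤ s := hρ.trans hs
  have hq0 : 0 ≤ q := hq1.trans hq
  induction k with
  | zero =>
    change (1 : ℝ) ≤ C * s ^ 0 + q ^ 0
    simp only [pow_zero, mul_one]
    linarith
  | succ k ih =>
    have h1 : R * ε * ρ ^ k ≤ C * (s - q) * s ^ k :=
      mul_le_mul h (pow_le_pow_left₀ hρ hs k) (pow_nonneg hρ k)
        ((mul_nonneg hR hε).trans h)
    have h2 : 0 ≤ C * s ^ k + q ^ k := by positivity
    have h3 : (1 - ε) * R * g ε R ρ k ≤ q * (C * s ^ k + q ^ k) :=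
      (mul_le_mul_of_nonneg_left ih hq1).trans (mul_le_mul_of_nonneg_right hq h2)
    calc g ε R ρ (k + 1) = R * ε * ρ ^ k + (1 - ε) * R * g ε R ρ k := by
          change R * (ε * ρ ^ k + (1 - ε) * g ε R ρ k) = _
          ring
      _ ≤ C * (s - q) * s ^ k + q * (C * s ^ k + q ^ k) := add_le_add h1 h3
      _ = C * s ^ (k + 1) + q ^ (k + 1) := by ring

/-- the annealed factor: `ρ ≤ e^(-c θ)` for small `θ` -/
theorem rho_bound {d : ℕ} (hd : 0 < d) (f : ℕ → ℝ) (hf : ∀ j ∈ range d, 0 < f j) (c : ℝ)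
    (hc : (∑ j ∈ range d, Real.log (f j)) / d + c < 0) :
    ∀ᶠ θ : ℝ in 𝓝[>] 0, (∑ j ∈ range d, f j ^ θ) / d * (1 + 4 * θ ^ 2) ≤ Real.exp (-(c * θ)) := by
  have hd0 : (0 : ℝ) < d := by exact_mod_cast hd
  have h1 : HasDerivAt (fun θ : ℝ => ∑ j ∈ range d, f j ^ θ) (∑ j ∈ range d, Real.log (f j)) 0 := by
    have h1 : HasDerivAt (fun θ : ℝ => ∑ j ∈ range d, f j ^ θ)
        (∑ j ∈ range d, f j ^ (0 : ℝ) * Real.log (f j)) 0 := by
      refine HasDerivAt.fun_sum fun j hj => ?_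
      exact Real.hasStrictDerivAt_const_rpow (hf j hj) 0 |>.hasDerivAt
    simpa using h1
  have h2 : HasDerivAt (fun θ : ℝ => (∑ j ∈ range d, f j ^ θ) / d)
      ((∑ j ∈ range d, Real.log (f j)) / d) 0 := h1.div_const _
  have h3 : HasDerivAt (fun θ : ℝ => 1 + 4 * θ ^ 2) 0 0 := by
    have := ((hasDerivAt_pow 2 (0 : ℝ)).const_mul 4).const_add 1
    simpa using this
  have h4 : HasDerivAt (fun θ : ℝ => Real.exp (c * θ)) c 0 := by
    have := ((hasDerivAt_id (0 : ℝ)).const_mul c).exp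
    simpa using this
  have h5 : HasDerivAt (fun θ : ℝ => (∑ j ∈ range d, f j ^ θ) / d * (1 + 4 * θ ^ 2) * Real.exp (c * θ))
      ((∑ j ∈ range d, Real.log (f j)) / d + c) 0 := by
    have h := (h2.mul h3).mul h4
    have e : ((∑ j ∈ range d, Real.log (f j)) / d * (1 + 4 * (0 : ℝ) ^ 2) +
        (∑ j ∈ range d, f j ^ (0 : ℝ)) / d * 0) * Real.exp (c * 0) +
        (∑ j ∈ range d, f j ^ (0 : ℝ)) / d * (1 + 4 * (0 : ℝ) ^ 2) * c =
        (∑ j ∈ range d, Real.log (f j)) / d + c := by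
      simp only [Real.rpow_zero, sum_const, card_range, nsmul_eq_mul, mul_one, mul_zero, Real.exp_zero,
        add_zero, ne_eq, OfNat.ofNat_ne_zero, not_false_eq_true, zero_pow]
      rw [div_self hd0.ne', one_mul]
    rw [← e]
    exact h
  have hsl := hasDerivAt_iff_tendsto_slope.1 h5
  have h6 : ∀ᶠ θ : ℝ in 𝓝[≠] 0,
      slope (fun θ : ℝ => (∑ j ∈ range d, f j ^ θ) / d * (1 + 4 * θ ^ 2) * Real.exp (c * θ)) 0 θ < 0 :=
    hsl.eventually_lt_const hc
  have h7 : 𝓝[>] (0 : ℝ) ≤ 𝓝[≠] 0 := nhdsWithin_mono _ fun x hx => ne_of_gt hx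
  filter_upwards [h7 h6, self_mem_nhdsWithin] with θ hθ hθ0
  rw [slope_def_field] at hθ
  have hθ0' : (0 : ℝ) < θ := hθ0
  simp only [Real.rpow_zero, sum_const, card_range, nsmul_eq_mul, mul_one, sub_zero, mul_zero,
    Real.exp_zero, add_zero, ne_eq, OfNat.ofNat_ne_zero, not_false_eq_true, zero_pow,
    div_self hd0.ne'] at hθ
  have h8 : (∑ j ∈ range d, f j ^ θ) / d * (1 + 4 * θ ^ 2) * Real.exp (c * θ) - 1 < 0 := by
    rcases div_neg_iff.1 hθ with h | h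
    · exact absurd h.2 (not_lt.2 hθ0'.le)
    · exact h.1
  rw [Real.exp_neg, ← one_div, le_div_iff₀ (Real.exp_pos _)]
  linarith

set_option maxHeartbeats 1000000 in
theorem t_GEO : S_GEO := by
  intro d m hd hm hprod
  have hd0 : (0 : ℝ) < d := by exact_mod_cast (by omega : 0 < d)
  obtain ⟨a, ha⟩ : ∃ a : ℕ → ℝ, a = fun j : ℕ => (m (j : ℤ) : ℝ) / d := ⟨_, rfl⟩
  have hmpos : ∀ j ∈ range d, (0 : ℝ) < (m (j : ℤ) : ℝ) := by
    intro j hj
    have := hm (j : ℤ) (by positivity) (by exact_mod_cast mem_range.1 hj)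
    exact_mod_cast this
  have hapos : ∀ j ∈ range d, 0 < a j := by
    intro j hj
    rw [ha]
    exact div_pos (hmpos j hj) hd0
  have hprod' : ∏ j ∈ range d, a j < 1 := by
    rw [ha, Finset.prod_div_distrib, Finset.prod_const, card_range, div_lt_one (by positivity)]
    have : ((∏ j ∈ range d, m (j : ℤ) : ℤ) : ℝ) < (((d : ℤ) ^ d : ℤ) : ℝ) := by exact_mod_cast hprod
    push_cast at this
    exact this
  -- the choice of `η`
  have e1 : ∀ᶠ η : ℝ in 𝓝[>] 0, ∏ j ∈ range d, (a j * (1 + η)) < 1 := by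
    have hc : Continuous fun η : ℝ => ∏ j ∈ range d, (a j * (1 + η)) :=
      continuous_finsetProd _ fun j _ => continuous_const.mul (continuous_const.add continuous_id)
    have h1 := hc.tendsto 0
    simp only [add_zero, mul_one] at h1
    exact (h1.mono_left nhdsWithin_le_nhds).eventually_lt_const hprod'
  have e2 : ∀ᶠ η : ℝ in 𝓝[>] 0, η < 1 :=
    (tendsto_id.mono_left nhdsWithin_le_nhds).eventually_lt_const (by norm_num : (0 : ℝ) < 1)
  obtain ⟨η, h1, h2, h3⟩ := (e1.and (e2.and self_mem_nhdsWithin)).exists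
  have hη0 : (0 : ℝ) < η := h3
  refine ⟨η, hη0, h2.le, fun κ hκ => ?_⟩
  have hfa : ∀ j, fac d m η j = a j * (1 + η) := by
    intro j
    rw [ha]
    rfl
  have hf : ∀ j ∈ range d, 0 < fac d m η j := by
    intro j hj
    rw [hfa]
    exact mul_pos (hapos j hj) (by linarith)
  have hfp : ∏ j ∈ range d, fac d m η j < 1 := by
    rw [Finset.prod_congr rfl fun j _ => hfa j]
    exact h1
  have hD : ∑ j ∈ range d, Real.log (fac d m η j) < 0 := by
    rw [← Real.log_prod fun j hj => (hf j hj).ne']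
    exact Real.log_neg (Finset.prod_pos hf) hfp
  have hbb : 1 ≤ bb d m η := by
    unfold bb
    have := sum_nonneg fun j hj => (hf j hj).le
    linarith
  have hbb0 : 0 < bb d m η := by linarith
  obtain ⟨L, hL⟩ : ∃ L : ℝ, L = Real.log (bb d m η) := ⟨_, rfl⟩
  have hL0 : 0 ≤ L := hL ▸ Real.log_nonneg hbb
  obtain ⟨c, hc⟩ : ∃ c : ℝ, c = -(∑ j ∈ range d, Real.log (fac d m η j)) / (2 * d) := ⟨_, rfl⟩
  have hc0 : 0 < c := by
    rw [hc]
    exact div_pos (by linarith) (by positivity)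
  have hc1 : (∑ j ∈ range d, Real.log (fac d m η j)) / d + c < 0 := by
    have : (∑ j ∈ range d, Real.log (fac d m η j)) / d = -2 * c := by
      rw [hc]
      field_simp
    rw [this]
    linarith
  have hρ := rho_bound (by omega : 0 < d) (fac d m η) hf c hc1
  -- the choice of `A₀`
  have hτ : Real.exp (-(c * κ)) < 1 := by
    rw [Real.exp_lt_one_iff]
    have := mul_pos hc0 hκ
    linarith
  have e3 : ∀ᶠ A : ℝ in atTop,
      (1 + (L + c) / (A - (L + c))) * Real.exp (-(c * κ)) + Real.exp (-((A - L) * κ)) < 1 := by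
    have t1 : Tendsto (fun A : ℝ => A - (L + c)) atTop atTop :=
      tendsto_atTop_add_const_right _ _ tendsto_id
    have t2 : Tendsto (fun A : ℝ => (L + c) / (A - (L + c))) atTop (𝓝 0) :=
      t1.const_div_atTop _
    have t3 : Tendsto (fun A : ℝ => (A - L) * κ) atTop atTop :=
      (tendsto_atTop_add_const_right _ _ tendsto_id).atTop_mul_const hκ
    have t4 : Tendsto (fun A : ℝ => Real.exp (-((A - L) * κ))) atTop (𝓝 0) :=
      Real.tendsto_exp_neg_atTop_nhds_zero.comp t3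
    have t5 := ((t2.const_add 1).mul_const (Real.exp (-(c * κ)))).add t4
    simp only [add_zero, one_mul] at t5
    exact t5.eventually_lt_const hτ
  obtain ⟨A₁, hA₁⟩ := eventually_atTop.1 e3
  refine ⟨max A₁ (L + c + 1), lt_of_lt_of_le (by linarith) (le_max_right _ _), fun A hA => ?_⟩
  have hA1 := hA₁ A ((le_max_left _ _).trans hA)
  have hA2 : L + c + 1 ≤ A := (le_max_right _ _).trans hA
  obtain ⟨b, hb⟩ : ∃ b : ℝ, b = A - (L + c) := ⟨_, rfl⟩
  have hb0 : 0 < b := by rw [hb]; linarith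
  have hA0 : 0 < A := by linarith
  have hAb : 1 + (L + c) / (A - (L + c)) = A / b := by
    rw [← hb]
    field_simp
    rw [hb]
    ring
  rw [hAb] at hA1
  -- the function of `θ = 1 / ℓ`
  obtain ⟨ψ, hψ⟩ : ∃ ψ : ℝ → ℝ, ψ = fun θ : ℝ =>
      A / b * (Real.exp ((L + c) * θ) * (1 + b * θ)) * Real.exp (-(c * κ) + c * θ) +
        Real.exp (-((A - L) * κ) + (A - L) * θ) := ⟨_, rfl⟩
  have hψ0 : ψ 0 < 1 := by
    rw [hψ]
    simpa using hA1
  have hψc : Continuous ψ := by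
    rw [hψ]
    fun_prop
  obtain ⟨γ, hγ0, hγ1⟩ := exists_between hψ0
  have hψp : 0 < ψ 0 := by
    rw [hψ]
    simp only [mul_zero, Real.exp_zero, add_zero, mul_one]
    positivity
  have e4 : ∀ᶠ θ : ℝ in 𝓝[>] 0, ψ θ < γ :=
    ((hψc.tendsto 0).mono_left nhdsWithin_le_nhds).eventually_lt_const hγ0
  have e5 : ∀ᶠ ℓ : ℝ in atTop, ψ ℓ⁻¹ < γ ∧
      (∑ j ∈ range d, fac d m η j ^ ℓ⁻¹) / d * (1 + 4 * ℓ⁻¹ ^ 2) ≤ Real.exp (-(c * ℓ⁻¹)) :=
    tendsto_inv_atTop_nhdsGT_zero.eventually (e4.and hρ)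
  obtain ⟨ℓ₁, hℓ₁⟩ := eventually_atTop.1 e5
  refine ⟨γ, max ℓ₁ (A + 1), hψp.trans hγ0, hγ1, ?_, ?_, fun ℓ hℓ => ?_⟩
  · exact le_trans (by linarith) (le_max_right _ _)
  · exact lt_of_lt_of_le (by linarith) (le_max_right _ _)
  obtain ⟨h5, h6⟩ := hℓ₁ ℓ ((le_max_left _ _).trans hℓ)
  have hℓA : A + 1 ≤ ℓ := (le_max_right _ _).trans hℓ
  have hℓ0 : 0 < ℓ := by linarith
  obtain ⟨θ, hθ⟩ : ∃ θ : ℝ, θ = ℓ⁻¹ := ⟨_, rfl⟩
  have hθ0 : 0 < θ := by rw [hθ]; positivity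
  have hθℓ : θ * ℓ = 1 := by rw [hθ]; exact inv_mul_cancel₀ hℓ0.ne'
  rw [← hθ] at h5 h6
  have hεθ : A / ℓ = A * θ := by rw [hθ, div_eq_mul_inv]
  have hε1 : A * θ < 1 := by
    calc A * θ < ℓ * θ := mul_lt_mul_of_pos_right (by linarith) hθ0
      _ = 1 := by rw [mul_comm, hθℓ]
  have hR : bb d m η ^ (1 / ℓ) = Real.exp (L * θ) := by
    rw [Real.rpow_def_of_pos hbb0, hL, hθ, one_div]
  have hρeq : (∑ j ∈ range d, fac d m η j ^ (1 / ℓ)) / d * (1 + 4 / ℓ ^ 2) =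
      (∑ j ∈ range d, fac d m η j ^ θ) / d * (1 + 4 * θ ^ 2) := by
    rw [hθ, one_div, inv_pow, div_eq_mul_inv (4 : ℝ)]
  rw [hεθ, hR, hρeq]
  have hρ0 : 0 ≤ (∑ j ∈ range d, fac d m η j ^ θ) / d * (1 + 4 * θ ^ 2) := by
    have := sum_nonneg fun j hj => (Real.rpow_pos_of_pos (hf j hj) θ).le
    positivity
  -- the numbers `s` and `q`
  have hq : (1 - A * θ) * Real.exp (L * θ) ≤ Real.exp (-((A - L) * θ)) := by
    have h7 : 1 - A * θ ≤ Real.exp (-(A * θ)) := by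
      have := Real.add_one_le_exp (-(A * θ))
      linarith
    calc (1 - A * θ) * Real.exp (L * θ) ≤ Real.exp (-(A * θ)) * Real.exp (L * θ) :=
          mul_le_mul_of_nonneg_right h7 (Real.exp_pos _).le
      _ = Real.exp (-((A - L) * θ)) := by
          rw [← Real.exp_add]
          congr 1
          ring
  have hsq : Real.exp (-(c * θ)) * (b * θ / (1 + b * θ)) ≤
      Real.exp (-(c * θ)) - Real.exp (-((A - L) * θ)) := by
    have h7 : Real.exp (-((A - L) * θ)) = Real.exp (-(c * θ)) * Real.exp (-(b * θ)) := by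
      rw [← Real.exp_add]
      congr 1
      rw [hb]
      ring
    have hbθ : 0 < b * θ := mul_pos hb0 hθ0
    have h8 : Real.exp (-(b * θ)) ≤ 1 / (1 + b * θ) := by
      rw [Real.exp_neg, ← one_div]
      apply one_div_le_one_div_of_le (by linarith)
      have := Real.add_one_le_exp (b * θ)
      linarith
    have h9 : b * θ / (1 + b * θ) = 1 - 1 / (1 + b * θ) := by
      field_simp
      ring
    rw [h7, h9, mul_sub, mul_one]
    have := mul_le_mul_of_nonneg_left h8 (Real.exp_pos (-(c * θ))).le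
    linarith
  obtain ⟨C, hC⟩ : ∃ C : ℝ, C = A / b * (Real.exp ((L + c) * θ) * (1 + b * θ)) := ⟨_, rfl⟩
  have hC0 : 0 ≤ C := by
    rw [hC]
    have hbθ : 0 < b * θ := mul_pos hb0 hθ0
    positivity
  have hCs : Real.exp (L * θ) * (A * θ) ≤
      C * (Real.exp (-(c * θ)) - Real.exp (-((A - L) * θ))) := by
    refine le_trans (le_of_eq ?_) (mul_le_mul_of_nonneg_left hsq hC0)
    have h7 : Real.exp ((L + c) * θ) * Real.exp (-(c * θ)) = Real.exp (L * θ) := by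
      rw [← Real.exp_add]
      congr 1
      ring
    have hbθ : 0 < b * θ := mul_pos hb0 hθ0
    rw [hC]
    calc Real.exp (L * θ) * (A * θ)
        = (Real.exp ((L + c) * θ) * Real.exp (-(c * θ))) * (A * θ) := by rw [h7]
      _ = A / b * (Real.exp ((L + c) * θ) * (1 + b * θ)) *
          (Real.exp (-(c * θ)) * (b * θ / (1 + b * θ))) := by
          field_simp
  have hg := g_bound (k := ⌊κ * ℓ⌋₊) (mul_pos hA0 hθ0).le (Real.exp_pos (L * θ)).le hρ0 h6 hq
    (mul_nonneg (by linarith) (Real.exp_pos _).le) hC0 hCs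
  refine hg.trans (le_trans ?_ h5.le)
  -- powers
  have hk : κ * ℓ - 1 ≤ (⌊κ * ℓ⌋₊ : ℝ) := by
    have := Nat.lt_floor_add_one (κ * ℓ)
    linarith
  have hkθ : κ - θ ≤ (⌊κ * ℓ⌋₊ : ℝ) * θ := by
    have h7 := mul_le_mul_of_nonneg_right hk hθ0.le
    have h8 : (κ * ℓ - 1) * θ = κ - θ := by
      calc (κ * ℓ - 1) * θ = κ * (θ * ℓ) - θ := by ring
        _ = κ - θ := by rw [hθℓ, mul_one]
    linarith
  have hpow : ∀ t : ℝ, 0 ≤ t → Real.exp (-(t * θ)) ^ ⌊κ * ℓ⌋₊ ≤ Real.exp (-(t * κ) + t * θ) := by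
    intro t ht
    rw [← Real.exp_nat_mul]
    apply Real.exp_le_exp.2
    have h7 := mul_le_mul_of_nonneg_left hkθ ht
    have h8 : (⌊κ * ℓ⌋₊ : ℝ) * (-(t * θ)) = -(t * ((⌊κ * ℓ⌋₊ : ℝ) * θ)) := by ring
    have h9 : -(t * κ) + t * θ = -(t * (κ - θ)) := by ring
    rw [h8, h9]
    exact neg_le_neg h7
  rw [hψ]
  simp only
  rw [← hC]
  exact add_le_add (mul_le_mul_of_nonneg_left (hpow c hc0.le) hC0) (hpow (A - L) (by linarith))

end Pool.Agent.U255.DZ.GEO
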